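import Pool.Agent.Run7.h771.TMQ.Least

/-!
# MP_e68cb8_nt, Q2: the best constants of the classes modulo `2 ^ k`

With `C_{k,i}` the infimum of `ρ (2 ^ k n + i + 1)` over `2 ^ k n + i ≥ 4` (the best constant in the
inequality) every claim of Q2 is true for all `k`, `i`: the infimum is attained, hence rational,
`C_{2k,0} = C_{2k+1,0} = ρ (2 * 4 ^ k + 1)`, and the listed values are right. With the lower limit
in place of the infimum Q2 is false: the lower limit is strictly larger than the infimum for `i = 0`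
and all `k ≥ 1`, so that every listed value fails.

Idea: on the block `[4 ^ k n, 4 ^ k (n + 1))` the terms are, up to sign, linear forms
`P x + Q y` (with `0 ≤ 2 P ≤ Q` from the fifth on) of the two preceding terms, so that the ratios
are monotone functions of the slope `σ n = x / y`; and the slopes obey `σ (n + 1) = ± g (σ n)` with
an increasing Moebius map `g` from `[-1, 1]` to `[0, 1)`, `σ 0 = -1`. As the Prouhet-Thue-Morse
sequence has no three consecutive equal terms, `σ n` is largest for `n = 2`, and for `n ≥ 1`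
smallest for `n = 3`.
-/

set_option autoImplicit false

namespace Pool.Agent.Results.MP_e68cb8_nt.BestConstants

open Pool.Agent.R488.TM Pool.Agent.Run7.h771.TMQ Filter

lemma mono_inv {u v : ℚ} (hu : -1 < u) (h : u ≤ v) : 1 / (v + 1) ≤ 1 / (u + 1) :=
  one_div_le_one_div_of_le (by linarith) (by linarith)

/-- the class `(2 k, 0)` -/
lemma even_class {k : ℕ} (hk : 1 ≤ k) : Cinf (2 * k) 0 = (rho (2 ^ (2 * k) * 2 + 0 + 1) : ℝ) := by
  obtain ⟨a, b, c, H⟩ := inv_exists k hk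
  obtain ⟨D, -⟩ := dyn hk H
  have hL := four_le hk
  refine Cinf_eq (by omega) (fun n hn => ?_)
  have hn1 : 1 ≤ n := by
    rcases Nat.eq_zero_or_pos n with rfl | h
    · omega
    · exact h
  rw [rho_zero hk, rho_zero hk]
  exact mono_inv (D.gt n hn1) (D.le2 n hn1)

/-- the class `(2 k + 1, 0)` -/
lemma odd_class {k : ℕ} (hk : 1 ≤ k) :
    Cinf (2 * k + 1) 0 = (rho (2 ^ (2 * k) * 2 + 0 + 1) : ℝ) := by
  obtain ⟨a, b, c, H⟩ := inv_exists k hk
  obtain ⟨D, -⟩ := dyn hk H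
  have hL := four_le hk
  have e : ∀ n, 2 ^ (2 * k + 1) * n = 2 ^ (2 * k) * (2 * n) := by intro n; ring
  have h : Cinf (2 * k + 1) 0 = (rho (2 ^ (2 * k + 1) * 1 + 0 + 1) : ℝ) := by
    refine Cinf_eq (by rw [e]; omega) (fun n hn => ?_)
    rw [e] at hn
    have hn1 : 1 ≤ n := by
      rcases Nat.eq_zero_or_pos n with rfl | h
      · omega
      · exact h
    rw [e, e, rho_zero hk, rho_zero hk]
    exact mono_inv (D.gt _ (by omega)) (D.le2 _ (by omega))
  rw [h, e]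

/-- the value of the constant of the classes `(2 k, 0)` and `(2 k + 1, 0)` -/
lemma value {k : ℕ} (hk : 1 ≤ k) {a b c : ℤ} (H : Inv k a b c) :
    rho (2 ^ (2 * k) * 2 + 0 + 1) = 1 / (gg a b c (-gg a b c (-1)) + 1) := by
  obtain ⟨D, -⟩ := dyn hk H
  rw [rho_zero hk, D.s2, D.s1]

lemma one_class : Cinf 1 0 = ((2 / 7 : ℚ) : ℝ) := by
  obtain ⟨D, -⟩ := dyn le_rfl inv_one
  have s2 : sig 1 2 = 1 / 2 := by
    rw [D.s2, D.s1]; norm_num [gg]
  have s3 : sig 1 3 = -(3 / 5) := by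
    rw [D.s3, s2]; norm_num [gg]
  have e1 : ∀ n, 2 ^ 1 * (2 * n) = 2 ^ (2 * 1) * n := by intro n; ring
  have e2 : ∀ n, 2 ^ 1 * (2 * n + 1) + 0 + 1 = 2 ^ (2 * 1) * n + 2 + 1 := by intro n; ring
  have h7 : rho (2 ^ 1 * (2 * 3 + 1) + 0 + 1) = 2 / 7 := by
    rw [e2, rho_two, s3]; norm_num
  have h : Cinf 1 0 = (rho (2 ^ 1 * (2 * 3 + 1) + 0 + 1) : ℝ) := by
    refine Cinf_eq (by norm_num) (fun n hn => ?_)
    rw [h7]
    rcases Nat.even_or_odd' n with ⟨u, rfl | rfl⟩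
    · rw [e1, rho_zero le_rfl]
      have h1 := mono_inv (D.gt u (by omega)) (D.le2 u (by omega))
      rw [s2] at h1
      refine le_trans ?_ h1
      norm_num
    · rw [e2, rho_two]
      have h1 := D.ge3 u (by omega)
      rw [s3] at h1
      rw [le_div_iff₀ (by linarith)]
      linarith
  rw [h, h7]

lemma one_lim : ((2 / 7 : ℚ) : ℝ) < Clim 1 0 := by
  obtain ⟨D, -⟩ := dyn le_rfl inv_one
  have s2 : sig 1 2 = 1 / 2 := by
    rw [D.s2, D.s1]; norm_num [gg]
  have s3 : sig 1 3 = -(3 / 5) := by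
    rw [D.s3, s2]; norm_num [gg]
  have e1 : ∀ n, 2 ^ 1 * (2 * n) = 2 ^ (2 * 1) * n := by intro n; ring
  have e2 : ∀ n, 2 ^ 1 * (2 * n + 1) + 0 + 1 = 2 ^ (2 * 1) * n + 2 + 1 := by intro n; ring
  have key : ∀ n : ℕ, 8 ≤ n → 12 / 41 ≤ rho (2 ^ 1 * n + 0 + 1) ∧
      rho (2 ^ 1 * n + 0 + 1) ≤ 5 / 2 := by
    intro n hn
    rcases Nat.even_or_odd' n with ⟨u, rfl | rfl⟩
    · rw [e1, rho_zero le_rfl]
      have h1 := mono_inv (D.gt u (by omega)) (D.le2 u (by omega))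
      have h2 := mono_inv (D.gt 3 (by omega)) (D.ge3 u (by omega))
      rw [s2] at h1
      rw [s3] at h2
      constructor
      · refine le_trans ?_ h1; norm_num
      · refine le_trans h2 ?_; norm_num
    · rw [e2, rho_two]
      have h1 := D.ge3' u (by omega)
      rw [s3] at h1
      have h2 : -(17 / 29) ≤ sig 1 u := by
        refine le_trans ?_ h1
        norm_num [gg]
      constructor
      · rw [le_div_iff₀ (by linarith)]; linarith
      · rw [div_le_iff₀ (by linarith)]; linarith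
  have h1 : ((12 / 41 : ℚ) : ℝ) ≤ Clim 1 0 := by
    refine Clim_ge (B := ((5 / 2 : ℚ) : ℝ)) ?_ ?_
    · filter_upwards [eventually_ge_atTop 8] with n hn
      exact_mod_cast (key n hn).2
    · filter_upwards [eventually_ge_atTop 8] with n hn
      exact_mod_cast (key n hn).1
  refine lt_of_lt_of_le ?_ h1
  exact_mod_cast (by norm_num : (2 / 7 : ℚ) < 12 / 41)

lemma lim_gt {k : ℕ} (hk : 1 ≤ k) :
    (rho (2 ^ (2 * k) * 2 + 0 + 1) : ℝ) < Clim (2 * k) 0 ∧
    (rho (2 ^ (2 * k) * 2 + 0 + 1) : ℝ) < Clim (2 * k + 1) 0 := by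
  obtain ⟨a, b, c, H⟩ := inv_exists k hk
  obtain ⟨D, -⟩ := dyn hk H
  have e : ∀ n, 2 ^ (2 * k + 1) * n = 2 ^ (2 * k) * (2 * n) := by intro n; ring
  have g3 : -1 < -gg (a : ℚ) b c (sig k 3) := by
    linarith [D.lt1 (D.mem 3).1 (D.mem 3).2]
  have g0 : 0 ≤ gg (a : ℚ) b c (-gg (a : ℚ) b c (sig k 3)) := D.nn g3.le
  have key : ∀ n : ℕ, 3 ≤ n → 1 / (gg (a : ℚ) b c (-gg (a : ℚ) b c (sig k 3)) + 1) ≤
      rho (2 ^ (2 * k) * n + 0 + 1) ∧ rho (2 ^ (2 * k) * n + 0 + 1) ≤ 1 / (sig k 3 + 1) := by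
    intro n hn
    rw [rho_zero hk]
    exact ⟨mono_inv (D.gt n (by omega)) (D.le2' n hn),
      mono_inv (D.gt 3 (by omega)) (D.ge3 n (by omega))⟩
  have hlt : rho (2 ^ (2 * k) * 2 + 0 + 1) <
      1 / (gg (a : ℚ) b c (-gg (a : ℚ) b c (sig k 3)) + 1) := by
    rw [rho_zero hk]
    exact one_div_lt_one_div_of_lt (by linarith) (by linarith [D.lt2])
  have hlt' : (rho (2 ^ (2 * k) * 2 + 0 + 1) : ℝ) <
      ((1 / (gg (a : ℚ) b c (-gg (a : ℚ) b c (sig k 3)) + 1) : ℚ) : ℝ) := by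
    exact_mod_cast hlt
  constructor
  · refine lt_of_lt_of_le hlt' (Clim_ge (B := ((1 / (sig k 3 + 1) : ℚ) : ℝ)) ?_ ?_)
    · filter_upwards [eventually_ge_atTop 3] with n hn
      exact_mod_cast (key n hn).2
    · filter_upwards [eventually_ge_atTop 3] with n hn
      exact_mod_cast (key n hn).1
  · refine lt_of_lt_of_le hlt' (Clim_ge (B := ((1 / (sig k 3 + 1) : ℚ) : ℝ)) ?_ ?_)
    · filter_upwards [eventually_ge_atTop 3] with n hn
      rw [e]
      exact_mod_cast (key (2 * n) (by omega)).2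
    · filter_upwards [eventually_ge_atTop 3] with n hn
      rw [e]
      exact_mod_cast (key (2 * n) (by omega)).1

/-- **Q2.** (1) All the claims of the refinement are true if `C_{k,i}` is the infimum, that is, the
best constant; (2) this infimum is attained for all `k`, `i`; (3) it is `ρ (2 * 4 ^ k + 1)` in the
classes `(2 k, 0)`; (4) the refinement is false if `C_{k,i}` is the lower limit; (5) for `i = 0` the
lower limit is strictly larger than the infimum, for every `k ≥ 1`. -/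
theorem result :
    QTwo Cinf ∧
    (∀ k i : ℕ, 1 ≤ k → i < 2 ^ k →
      ∃ n : ℕ, 4 ≤ 2 ^ k * n + i ∧ Cinf k i = (rho (2 ^ k * n + i + 1) : ℝ)) ∧
    (∀ k : ℕ, 1 ≤ k → Cinf (2 * k) 0 = (rho (2 * 4 ^ k + 1) : ℝ)) ∧
    ¬ QTwo Clim ∧
    (∀ k : ℕ, 1 ≤ k → Cinf k 0 < Clim k 0) := by
  have hatt : ∀ k i : ℕ, 1 ≤ k → i < 2 ^ k →
      ∃ N : ℕ, 4 ≤ 2 ^ k * N + i ∧ Cinf k i = (rho (2 ^ k * N + i + 1) : ℝ) ∧
        ∀ n, 4 ≤ 2 ^ k * n + i → rho (2 ^ k * N + i + 1) ≤ rho (2 ^ k * n + i + 1) := by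
    intro k i hk hi
    obtain ⟨N, h1, h2⟩ := least_all k hk i hi
    exact ⟨N, h1, Cinf_eq h1 h2, h2⟩
  have hlast : ∀ k : ℕ, 1 ≤ k → Cinf k 0 < Clim k 0 := by
    intro k hk
    rcases Nat.even_or_odd' k with ⟨j, rfl | rfl⟩
    · rw [even_class (by omega : 1 ≤ j)]
      exact (lim_gt (by omega)).1
    · rcases Nat.eq_zero_or_pos j with rfl | hj
      · rw [show 2 * 0 + 1 = 1 from rfl, one_class]
        exact one_lim
      · rw [odd_class hj]
        exact (lim_gt hj).2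
  have v1 := value le_rfl inv_one
  have v2 := value (by norm_num) inv_two
  have v3 := value (by norm_num) inv_three
  refine ⟨⟨?_, ?_, ?_, ⟨?_, ?_⟩, ⟨?_, ?_⟩, ?_, ?_⟩, ?_, ?_, ?_, hlast⟩
  · intro k i hk hi
    obtain ⟨N, h1, h2, h3⟩ := hatt k i hk hi
    refine ⟨⟨_, h2⟩, fun n hn => ?_⟩
    rw [h2]
    have h4 := h3 n hn
    have h5 : (0 : ℚ) < |(h (2 ^ k * n + i) : ℚ)| := abs_pos.2 (by exact_mod_cast h_ne _ hn)
    have h6 : rho (2 ^ k * n + i + 1) * |(h (2 ^ k * n + i) : ℚ)| =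
        |(h (2 ^ k * n + i + 1) : ℚ)| := by
      unfold rho
      rw [Nat.add_sub_cancel, div_mul_cancel₀ _ h5.ne']
    have h7 : rho (2 ^ k * N + i + 1) * |(h (2 ^ k * n + i) : ℚ)| ≤
        |(h (2 ^ k * n + i + 1) : ℚ)| := by
      rw [← h6]
      exact mul_le_mul_of_nonneg_right h4 h5.le
    exact_mod_cast h7
  · intro k hk
    rw [even_class hk, odd_class hk]
  · rw [one_class]; norm_num
  · rw [show 2 = 2 * 1 from rfl, even_class le_rfl, v1]; norm_num [gg]
  · rw [show 3 = 2 * 1 + 1 from rfl, odd_class le_rfl, v1]; norm_num [gg]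
  · rw [show 4 = 2 * 2 from rfl, even_class (by norm_num), v2]; norm_num [gg]
  · rw [show 5 = 2 * 2 + 1 from rfl, odd_class (by norm_num), v2]; norm_num [gg]
  · rw [show 6 = 2 * 3 from rfl, even_class (by norm_num), v3]; norm_num [gg]
  · rw [show 7 = 2 * 3 + 1 from rfl, odd_class (by norm_num), v3]; norm_num [gg]
  · intro k i hk hi
    obtain ⟨N, h1, h2, -⟩ := hatt k i hk hi
    exact ⟨N, h1, h2⟩
  · intro k hk
    rw [even_class hk]
    have e : 2 ^ (2 * k) * 2 + 0 + 1 = 2 * 4 ^ k + 1 := by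
      rw [pow_mul]; norm_num; ring
    rw [e]
  · intro hQ
    have h1 := hQ.2.2.1
    have h2 := one_lim
    rw [h1] at h2
    norm_num at h2

end Pool.Agent.Results.MP_e68cb8_nt.BestConstants
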